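import Pool.Agent.Run7.h470.Spec.Mem

/-!
# Testing an upper bound on the spectral norm of a tensor is `∀ℝ`-complete

Sketch of the hardness proof.  Let `S` be a system of constraints `x = 1`, `x + y = z`, `x * y = z`
in `m` real variables.

* (Effective inequality.)  If `S` has no solution, then the sum of the squares of the errors of the
  constraints at a point `z` is at least `b ^ (-2 ^ K)` with `b = 2 + |z|²` and `K` polynomial in the
  size of `S`.
* (Open encoding.)  The system `Y₀ = 4`, `Y_{r+1} = 2 Y_r + z_r²` (`r < m`), `Y_{r+1} = Y_r²`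
  (`m ≤ r < m + K`), `X_a = W z_a` for `W = Y_{m+K}`, together with `X_i = W`, `X_i + X_j = X_k` and
  `X_i z_j = X_k` for the three kinds of constraints, has a point at which the sum of the squares of
  the errors is smaller than `1` if and only if `S` is satisfiable: all the errors smaller than `1`
  force `W > b ^ 2 ^ K`, and division by `W` gives a contradiction with the effective inequality.
  Homogenizing, `S` is satisfiable if and only if `∑ q_g(ξ)² < ξ₀⁴` has a solution `ξ`, where the
  `q_g` are quadratic forms with three terms and small integer coefficients.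
* (Tensor.)  The form `σ² |ξ|⁴ - c (∑ q_g(ξ)² - ξ₀⁴)` is a sum of squares `∑_k r_k(ξ)²` of explicit
  quadratic forms with small integer coefficients, for suitable integers `c > 0` and `σ`.  For the
  tensor `T(x,y,z) = ∑_k z_k r_k(x,y)` the norm exceeds `σ` if and only if some `ξ` has
  `∑_k r_k(ξ)² > σ² |ξ|⁴`, that is, `∑ q_g(ξ)² < ξ₀⁴` (polarization, the parallelogram law and the
  Cauchy–Schwarz inequality).
-/

namespace Pool.Agent.Results.MP_50cd9e_lc.SpectralNormComplete

open Pool.Agent.NPC Pool.Agent.NPC.ER Run7.h470.Spec

/-- SPECTRAL-NORM-BOUND is `∀ℝ`-complete and SPECTRAL-NORM-EXCEED is `∃ℝ`-complete, under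
polynomial-time many-one reductions. -/
theorem result : ARComplete (lang SpectralNormBound) ∧ ERComplete (lang SpectralNormExceed) :=
  ⟨⟨Pool.Agent.NPC.H470Spec.bound_mem, Pool.Agent.NPC.H470Spec.bound_hard⟩,
    ⟨Pool.Agent.NPC.H470Spec.exceed_mem, Pool.Agent.NPC.H470Spec.exceed_hard⟩⟩

end Pool.Agent.Results.MP_50cd9e_lc.SpectralNormComplete
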